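import Pool.Agent.helper45.FG.SpecZ
import Pool.Agent.helper70.FGZ.Geo
import Pool.Agent.helper75.FG.Place

/-! MP_70a088 (fg:, part Z), row VER: verticals do not move far. -/

set_option autoImplicit false

open Complex Metric Set Filter Topology MeasureTheory
open EGH (Al Rh)
open FG FGE

noncomputable section

namespace FGZ

theorem VER_surj (L : ℂ →L[ℝ] ℂ) (hL : L.det ≠ 0) : L.range = ⊤ := by
  have h1 : LinearMap.det (L : ℂ →ₗ[ℝ] ℂ) ≠ 0 := hL
  rw [LinearMap.range_eq_top]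
  exact (LinearMap.equivOfDetNeZero (L : ℂ →ₗ[ℝ] ℂ) h1).surjective

/-- `bx` is open. -/
theorem VER_map {T : ℂ → ℂ} {N : ℕ} {kap A : ℝ} {D : ℕ → Set ℂ} {y a : ℂ} {h e : ℝ} (hP : PD T N kap A D) (hp : Plc T N D y a h e) (he : e ≤ 1 / 1000)
    {ζ : ℂ} (hζ : |ζ.im| < 2 * h) (hR : |ζ.re| ≤ 2) : map (bx T N y a) (𝓝 ζ) = 𝓝 (bx T N y a ζ) := by
  have hopen : IsOpen {ζ : ℂ | |ζ.im| < 2 * h} := isOpen_lt (by fun_prop) continuous_const
  have h1 : HasStrictFDerivAt (bx T N y a) (bxD T N y a ζ) ζ := by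
    apply hasStrictFDerivAt_of_hasFDerivAt_of_continuousAt
    · filter_upwards [hopen.mem_nhds hζ] with z hz
      exact bx_hasF hP hp hz
    · exact (bxD_cont hP hp).continuousAt (hopen.mem_nhds hζ)
  apply h1.map_nhds_eq_of_surj
  apply VER_surj
  intro h0
  have h2 := (bxD_det hP hp he hζ hR).1
  rw [h0, abs_zero, bxD_one] at h2
  have h3 := hp.na _ (sg_mem hp hζ)
  have h4 : 0 < ‖a‖ := norm_pos_iff.2 hp.a0
  have h5 : ‖a‖ ≤ ‖Vf T N (sg y a ζ.im)‖ + e * ‖a‖ := by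
    have := norm_sub_norm_le a (Vf T N (sg y a ζ.im))
    rw [norm_sub_rev] at this
    linarith
  have h6 : 0 < ‖Vf T N (sg y a ζ.im)‖ := by nlinarith
  nlinarith [sq_nonneg (‖Vf T N (sg y a ζ.im)‖), pow_pos h6 2]

theorem VER (hARE : ARE_stmt) : VER_stmt := by
  intro T N kap A D y a h e hP hp he0 hhe al be t hal hbe halive s₁ hs₁ s₂ hs₂ hs12 hver
  have hh := hp.h1
  have ha : 0 < ‖a‖ := norm_pos_iff.2 hp.a0
  have he : e ≤ 1 / 1000 := by nlinarith
  set U : Set ℂ := ball y (3 / 2 * h * ‖a‖) with hU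
  set B : Set ℂ := VBx 0 1 s₁ s₂ with hB
  set Φ : ℂ → ℂ := fun z => T^[t] (bx T N y a z) with hΦ
  set Ω : Set ℂ := {z | ∀ j < t, T^[j] z ∈ D 0} with hΩ
  have hΩo : IsOpen Ω := by
    rw [isOpen_iff_mem_nhds]
    intro z hz
    exact (FGP.near hP t z hz).2
  have hgd : DifferentiableOn ℂ (T^[t]) Ω := FGP.hol hP t Ω (fun u hu => hu)
  have hgi : InjOn (T^[t]) Ω := FGP.injOn hP t Ω (fun u hu => hu)
  have him : ∀ z : ℂ, z.im ∈ Icc s₁ s₂ → |z.im| < 2 * h := by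
    intro z hz
    rw [abs_lt]
    constructor <;> linarith [hz.1, hz.2, hs₁.1, hs₂.2]
  have hbΩ : ∀ z : ℂ, z.re ∈ Icc (0 : ℝ) 1 → z.im ∈ Icc s₁ s₂ → bx T N y a z ∈ Ω := by
    intro z hz1 hz2 j hj
    have := halive z.im ⟨hs₁.1.trans_le hz2.1, hz2.2.trans_lt hs₂.2⟩ j hj z.re hz1
    simpa using this
  have hBsub : ∀ z ∈ B, z.re ∈ Icc (0 : ℝ) 1 ∧ z.im ∈ Icc s₁ s₂ := fun z hz =>
    ⟨Ioo_subset_Icc_self hz.1, Ioo_subset_Icc_self hz.2⟩
  have hre10 : ∀ z : ℂ, z.re ∈ Icc (0 : ℝ) 1 → |z.re| ≤ 10 := by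
    intro z hz
    rw [abs_of_nonneg hz.1]; linarith [hz.2]
  have hinj : InjOn Φ B := by
    intro z hz w hw hzw
    obtain ⟨hz1, hz2⟩ := hBsub z hz
    obtain ⟨hw1, hw2⟩ := hBsub w hw
    have h1 := hgi (hbΩ z hz1 hz2) (hbΩ w hw1 hw2) hzw
    exact bx_inj hP hp he (him z hz2) (him w hw2) (hre10 w hw1) h1
  -- the set `Y`
  set Y : Set ℂ := U ∩ Φ '' B with hY
  have hYo : IsOpen Y := by
    apply isOpen_ball.inter
    rw [isOpen_iff_mem_nhds]
    rintro _ ⟨z, hz, rfl⟩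
    obtain ⟨hz1, hz2⟩ := hBsub z hz
    have h1 : AnalyticAt ℂ (T^[t]) (bx T N y a z) := hgd.analyticAt (hΩo.mem_nhds (hbΩ z hz1 hz2))
    have h2 := h1.eventually_constant_or_nhds_le_map_nhds
    have h3 : map (bx T N y a) (𝓝 z) = 𝓝 (bx T N y a z) := VER_map hP hp he (him z hz2) (by
      rw [abs_of_nonneg hz1.1]; linarith [hz1.2])
    have h4 : Φ '' B ∈ map Φ (𝓝 z) := image_mem_map ((VBx_open _ _ _ _).mem_nhds hz)
    rcases h2 with h2 | h2
    · exfalso
      have h5 : ∀ᶠ w in 𝓝[≠] (bx T N y a z), w ∈ Ω ∧ T^[t] w = T^[t] (bx T N y a z) ∧ w ≠ bx T N y a z := by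
        filter_upwards [nhdsWithin_le_nhds (hΩo.mem_nhds (hbΩ z hz1 hz2)), nhdsWithin_le_nhds h2, self_mem_nhdsWithin] with w hw1 hw2 hw3
        exact ⟨hw1, hw2, hw3⟩
      obtain ⟨w, hw1, hw2, hw3⟩ := h5.exists
      exact hw3 (hgi hw1 (hbΩ z hz1 hz2) hw2)
    · rw [← h3, Filter.map_map] at h2
      exact h2 h4
  have hYdisj : ∀ k : ℕ, 1 ≤ k → (k : ℝ) ≤ h / 8 → ∀ z ∈ Y, T^[k * N] z ∉ Y := by
    rintro k hk1 hk2 _ ⟨hzU, p, hp1, rfl⟩ ⟨_, p', hp2, hpp⟩
    obtain ⟨hpr, hpi⟩ := hBsub p hp1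
    obtain ⟨hpr', hpi'⟩ := hBsub p' hp2
    have hR : 3 / 2 * h + k * (1 + e) ≤ 2 * h := by nlinarith
    have h1 : T^[t] (T^[k * N] (bx T N y a p)) = T^[t] (bx T N y a p') := by
      have h2 : Φ p' = T^[k * N] (Φ p) := hpp
      simp only [hΦ] at h2
      rw [h2, ← Function.iterate_add_apply, ← Function.iterate_add_apply, Nat.add_comm]
    have h2 : T^[k * N] (bx T N y a p) ∈ Ω := by
      intro j hj
      rw [← Function.iterate_add_apply]
      rcases Nat.lt_or_ge (j + k * N) t with h3 | h3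
      · exact hbΩ p hpr hpi _ h3
      · have h4 : j + k * N = (j + k * N - t) + t := by omega
        rw [h4, Function.iterate_add_apply]
        exact FGP.anti hP (by omega) (by omega) (FGP.phs hP hp (R := 3 / 2 * h) _ hzU k hR _ (by omega))
    have h3 : T^[k * N] (bx T N y a p) = bx T N y a p' := hgi h2 (hbΩ p' hpr' hpi') h1
    have hb0 : bx T N y a p ∈ ball y ((h + 3) * ‖a‖) := by
      have := FGP.bx_mem hp (x := p.re) (s := p.im) (R := h + 3) (him p hpi) (by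
        rw [abs_of_nonneg hpr.1, abs_of_nonneg (by linarith [hpi.1, hs₁.1])]
        nlinarith [hpi.2, hs₂.2, hpr.2, hpr.1])
      simpa using this
    rcases Nat.lt_or_ge 1 k with hk | hk
    · -- `k ≥ 2`
      have hR2 : (h + 3) + k * (1 + e) ≤ 2 * h := by nlinarith
      have h4 := (FGP.fwd hp _ hb0 k hR2).1
      rw [FGP.FkT, h3] at h4
      have h5 := bx_near hp (ζ := p) (him p hpi)
      have h6 := bx_near hp (ζ := p') (him p' hpi')
      rw [abs_of_nonneg hpr.1] at h5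
      rw [abs_of_nonneg hpr'.1] at h6
      have h7 : ‖a * (p' - p - k)‖ ≤ (k * e + 2 * e) * ‖a‖ := by
        have e1 : a * (p' - p - k) = (bx T N y a p' - bx T N y a p - k * a) - (bx T N y a p' - cr y a p') + (bx T N y a p - cr y a p) := by
          have := cr_sub y a p' p
          linear_combination (1 : ℂ) * (-this)
        rw [e1]
        refine (norm_add_le _ _).trans ?_
        have h8 := norm_sub_le (bx T N y a p' - bx T N y a p - k * a) (bx T N y a p' - cr y a p')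
        have h9 : p.re * (e * ‖a‖) ≤ e * ‖a‖ := mul_le_of_le_one_left (by positivity) hpr.2
        have h10 : p'.re * (e * ‖a‖) ≤ e * ‖a‖ := mul_le_of_le_one_left (by positivity) hpr'.2
        linarith
      rw [norm_mul, mul_comm] at h7
      have h8 : ‖p' - p - k‖ ≤ k * e + 2 * e := le_of_mul_le_mul_right h7 ha
      have h9 := (abs_le.1 ((abs_re_le_norm _).trans h8)).1
      simp only [sub_re, natCast_re] at h9
      have h10 : (2 : ℝ) ≤ k := by exact_mod_cast hk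
      have h11 : (k : ℝ) * e ≤ 1 / 1000 := by nlinarith
      linarith [hpr.1, hpr'.2]
    · have hk' : k = 1 := by omega
      subst hk'
      rw [one_mul] at h3
      have h4 : bx T N y a p ∈ D 0 := by
        apply FGP.b0 hP hp
        exact ball_subset_ball (mul_le_mul_of_nonneg_right (by linarith) (norm_nonneg a)) hb0
      have h5 := bx_FF hP hp he (him p hpi) (him p' hpi') hpr hpr' h4 h3
      have h6 := hp1.1.1
      linarith [h5.1]
  have hvol := hARE T N kap A D y a h e hP hp he0 hhe Y hYo inter_subset_left hYdisj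
  have hV := VLA (bx T N y a) (bxD T N y a) (T^[t]) Ω U (Ioo 0 1) (1 / 2) 0 1 s₁ s₂ (h / 50 * ‖a‖) (by norm_num) (by positivity) hΩo isOpen_ball hgd
    (fun z hz1 hz2 => ⟨bx_hasF hP hp (him z hz2), hbΩ z (Ioo_subset_Icc_self hz1) hz2⟩)
    ((bxD_cont hP hp).mono (fun z hz => him z hz.2)) hinj
    (fun z hz => (bxD_det hP hp he (him z (hBsub z hz).2) (by rw [abs_of_nonneg (hBsub z hz).1.1]; linarith [(hBsub z hz).1.2])).2)
    subset_rfl measurableSet_Ioo hver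
  have hV2 : ENNReal.ofReal (1 / 2 * (h / 50 * ‖a‖) ^ 2) ≤ ENNReal.ofReal ((s₂ - s₁) * (100 * h * ‖a‖ ^ 2)) := by
    have h1 : ENNReal.ofReal (s₂ - s₁) * volume Y ≤ ENNReal.ofReal (s₂ - s₁) * ENNReal.ofReal (100 * h * ‖a‖ ^ 2) :=
      mul_le_mul_right hvol _
    rw [← ENNReal.ofReal_mul (by linarith)] at h1
    have h2 := hV.trans h1
    rwa [Real.volume_Ioo, sub_zero, ENNReal.ofReal_one, mul_one] at h2
  rw [ENNReal.ofReal_le_ofReal_iff (by have : 0 ≤ s₂ - s₁ := by linarith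
                                       positivity)] at hV2
  have ha2 : 0 < ‖a‖ ^ 2 := by positivity
  have h3 : h / 5000 * (h * ‖a‖ ^ 2) ≤ (s₂ - s₁) * 100 * (h * ‖a‖ ^ 2) := by nlinarith
  have h4 : h / 5000 ≤ (s₂ - s₁) * 100 := le_of_mul_le_mul_right h3 (by positivity)
  linarith

end FGZ
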